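import Pool.Agent.H84.CAL.GAMEX

open Filter Topology

namespace CAL

section
variable {𝕜 : Type*} [RCLike 𝕜] {X Z : Type*} [NormedAddCommGroup X] [NormedSpace 𝕜 X]
    [NormedAddCommGroup Z] [NormedSpace 𝕜 Z]

theorem gamal_one {S : Set ((X →L[𝕜] X) × (Z →L[𝕜] Z))} {c0 : ℝ} (h : AbsData S c0) :
    Gam S (1 : X →L[𝕜] X) (1 : 𝕜) (0 : Z →L[𝕜] Z) := by
  intro e he
  refine ⟨0, h.zero, 0, isCompactOperator_zero, ?_, ?_⟩
  · have : (1 : X →L[𝕜] X) - (1 : 𝕜) • ContinuousLinearMap.id 𝕜 X -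
        (0 : (X →L[𝕜] X) × (Z →L[𝕜] Z)).1 - 0 = 0 := by
      ext x; simp
    rw [this]; simpa using he.le
  · simpa using he.le

theorem gamal_zero {S : Set ((X →L[𝕜] X) × (Z →L[𝕜] Z))} {c0 : ℝ} (h : AbsData S c0) :
    Gam S (0 : X →L[𝕜] X) (0 : 𝕜) (0 : Z →L[𝕜] Z) := by
  intro e he
  refine ⟨0, h.zero, 0, isCompactOperator_zero, ?_, ?_⟩
  · have : (0 : X →L[𝕜] X) - (0 : 𝕜) • ContinuousLinearMap.id 𝕜 X -
        (0 : (X →L[𝕜] X) × (Z →L[𝕜] Z)).1 - 0 = 0 := by
      ext x; simp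
    rw [this]; simpa using he.le
  · simpa using he.le

theorem gamal_add {S : Set ((X →L[𝕜] X) × (Z →L[𝕜] Z))} {c0 : ℝ} (h : AbsData S c0)
    {T T' : X →L[𝕜] X} {c c' : 𝕜} {V V' : Z →L[𝕜] Z} (h1 : Gam S T c V) (h2 : Gam S T' c' V') :
    Gam S (T + T') (c + c') (V + V') := by
  intro e he
  obtain ⟨s, hs, K, hK, a1, a2⟩ := h1 (e / 2) (by positivity)
  obtain ⟨t, ht, L, hL, b1, b2⟩ := h2 (e / 2) (by positivity)
  refine ⟨s + t, h.add _ hs _ ht, K + L, hK.add hL, ?_, ?_⟩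
  · have : T + T' - (c + c') • ContinuousLinearMap.id 𝕜 X - (s + t).1 - (K + L) =
        (T - c • ContinuousLinearMap.id 𝕜 X - s.1 - K) +
        (T' - c' • ContinuousLinearMap.id 𝕜 X - t.1 - L) := by
      rw [Prod.fst_add, add_smul]; abel
    rw [this]
    refine (norm_add_le _ _).trans ?_
    linarith
  · have : V + V' - (s + t).2 = (V - s.2) + (V' - t.2) := by
      rw [Prod.snd_add]; abel
    rw [this]
    refine (norm_add_le _ _).trans ?_
    linarith

theorem gamal_smul {S : Set ((X →L[𝕜] X) × (Z →L[𝕜] Z))} {c0 : ℝ} (h : AbsData S c0)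
    {T : X →L[𝕜] X} {c : 𝕜} {V : Z →L[𝕜] Z} (r : 𝕜) (h1 : Gam S T c V) :
    Gam S (r • T) (r * c) (r • V) := by
  intro e he
  have hr := norm_nonneg r
  obtain ⟨s, hs, K, hK, a1, a2⟩ := h1 (e / (‖r‖ + 1)) (by positivity)
  have hle : ‖r‖ * (e / (‖r‖ + 1)) ≤ e := by
    rw [mul_div_assoc', div_le_iff₀ (by positivity)]
    nlinarith
  refine ⟨r • s, h.smul _ hs r, r • K, hK.smul r, ?_, ?_⟩
  · have : r • T - (r * c) • ContinuousLinearMap.id 𝕜 X - (r • s).1 - r • K =
        r • (T - c • ContinuousLinearMap.id 𝕜 X - s.1 - K) := by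
      rw [Prod.smul_fst, mul_smul]; simp only [smul_sub]
    rw [this, norm_smul]
    exact (mul_le_mul_of_nonneg_left a1 hr).trans hle
  · have : r • V - (r • s).2 = r • (V - s.2) := by
      rw [Prod.smul_snd, smul_sub]
    rw [this, norm_smul]
    exact (mul_le_mul_of_nonneg_left a2 hr).trans hle

theorem gamal_mul {S : Set ((X →L[𝕜] X) × (Z →L[𝕜] Z))} {c0 : ℝ} (h : AbsData S c0)
    {T T' : X →L[𝕜] X} {c c' : 𝕜} {V V' : Z →L[𝕜] Z} (h1 : Gam S T c V) (h2 : Gam S T' c' V') :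
    Gam S (T * T') (c * c') (c • V' + c' • V + V * V') := by
  intro e he
  set M : ℝ := 1 + ‖T‖ + ‖T'‖ + ‖c‖ + ‖c'‖ + ‖V‖ + ‖V'‖ with hM
  have n1 := norm_nonneg T
  have n2 := norm_nonneg T'
  have n3 := norm_nonneg c
  have n4 := norm_nonneg c'
  have n5 := norm_nonneg V
  have n6 := norm_nonneg V'
  have hMp : 0 < M := by positivity
  set d : ℝ := min 1 (e / M) with hd
  have hd0 : 0 < d := lt_min one_pos (by positivity)
  have hd1 : d ≤ 1 := min_le_left _ _
  have hd2 : d * M ≤ e := by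
    have := min_le_right 1 (e / M)
    rw [← hd, le_div_iff₀ hMp] at this
    exact this
  obtain ⟨s, hs, K, hK, a1, a2⟩ := h1 d hd0
  obtain ⟨t, ht, L, hL, b1, b2⟩ := h2 d hd0
  set I := ContinuousLinearMap.id 𝕜 X with hI
  set D := T - c • I - s.1 - K with hD
  set D' := T' - c' • I - t.1 - L with hD'
  have hT : T = c • I + s.1 + K + D := by rw [hD]; abel
  have hT' : T' = c' • I + t.1 + L + D' := by rw [hD']; abel
  have hI1 : ∀ R : X →L[𝕜] X, I * R = R := fun R => one_mul R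
  have hI2 : ∀ R : X →L[𝕜] X, R * I = R := fun R => mul_one R
  have hcomp : IsCompactOperator (c • L + s.1 * L + K * (T' - D') : X →L[𝕜] X) := by
    refine (IsCompactOperator.add (hL.smul c) ?_).add ?_
    · exact hL.clm_comp s.1
    · exact hK.comp_clm (T' - D')
  refine ⟨c • t + c' • s + s * t, h.add _ (h.add _ (h.smul _ ht c) _ (h.smul _ hs c')) _
    (h.mul _ hs _ ht), _, hcomp, ?_, ?_⟩
  · have : T * T' - (c * c') • I - (c • t + c' • s + s * t).1 -
        (c • L + s.1 * L + K * (T' - D')) = D * T' + (T - D) * D' := by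
      have e1 : (c • t + c' • s + s * t).1 = c • t.1 + c' • s.1 + s.1 * t.1 := rfl
      have e2 : T - D = c • I + s.1 + K := by rw [hD]; abel
      have e3 : T' - D' = c' • I + t.1 + L := by rw [hD']; abel
      have e4 : T * T' = D * T' + (T - D) * D' + (T - D) * (T' - D') := by noncomm_ring
      rw [e4, e1, e2, e3]
      simp only [add_mul, mul_add, smul_mul_assoc, mul_smul_comm, hI1, hI2, smul_smul, smul_add]
      rw [mul_comm c' c]
      abel
    rw [this]
    refine (norm_add_le _ _).trans ?_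
    have f1 : ‖D * T'‖ ≤ d * ‖T'‖ := (norm_mul_le _ _).trans (mul_le_mul_of_nonneg_right a1 n2)
    have f2 : ‖(T - D) * D'‖ ≤ (‖T‖ + 1) * d := by
      refine (norm_mul_le _ _).trans ?_
      have : ‖T - D‖ ≤ ‖T‖ + 1 := (norm_sub_le _ _).trans (by linarith)
      exact mul_le_mul this b1 (norm_nonneg _) (by positivity)
    nlinarith
  · have e1 : (c • t + c' • s + s * t).2 = c • t.2 + c' • s.2 + s.2 * t.2 := rfl
    have : c • V' + c' • V + V * V' - (c • t + c' • s + s * t).2 =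
        c • (V' - t.2) + c' • (V - s.2) + ((V - s.2) * V' + s.2 * (V' - t.2)) := by
      rw [e1]
      simp only [smul_sub, sub_mul, mul_sub]
      abel
    rw [this]
    have f1 : ‖c • (V' - t.2)‖ ≤ ‖c‖ * d := by
      rw [norm_smul]; exact mul_le_mul_of_nonneg_left b2 n3
    have f2 : ‖c' • (V - s.2)‖ ≤ ‖c'‖ * d := by
      rw [norm_smul]; exact mul_le_mul_of_nonneg_left a2 n4
    have f3 : ‖(V - s.2) * V'‖ ≤ d * ‖V'‖ :=
      (norm_mul_le _ _).trans (mul_le_mul_of_nonneg_right a2 n6)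
    have f4 : ‖s.2 * (V' - t.2)‖ ≤ (‖V‖ + 1) * d := by
      refine (norm_mul_le _ _).trans ?_
      have : ‖s.2‖ ≤ ‖V‖ + 1 := by
        have e2 : s.2 = V - (V - s.2) := by abel
        rw [e2]
        exact (norm_sub_le _ _).trans (by linarith)
      exact mul_le_mul this b2 (norm_nonneg _) (by positivity)
    refine (norm_add_le _ _).trans ?_
    have g1 := norm_add_le (c • (V' - t.2)) (c' • (V - s.2))
    have g2 := norm_add_le ((V - s.2) * V') (s.2 * (V' - t.2))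
    nlinarith

theorem gamal_uniq {S : Set ((X →L[𝕜] X) × (Z →L[𝕜] Z))} {c0 : ℝ} (h : AbsData S c0)
    {T : X →L[𝕜] X} {c c' : 𝕜} {V V' : Z →L[𝕜] Z} (h1 : Gam S T c V) (h2 : Gam S T c' V') :
    c = c' ∧ V = V' := by
  have hc : c = c' := by
    have key : ∀ e : ℝ, 0 < e → c0 * ‖c - c'‖ ≤ e := by
      intro e he
      obtain ⟨s, hs, K, hK, a1, -⟩ := h1 (e / 2) (by positivity)
      obtain ⟨t, ht, L, hL, b1, -⟩ := h2 (e / 2) (by positivity)
      refine (h.ch (c - c') _ (h.sub hs ht) (K - L) (hK.sub hL)).trans ?_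
      have : (c - c') • ContinuousLinearMap.id 𝕜 X + (s - t).1 + (K - L) =
          (T - c' • ContinuousLinearMap.id 𝕜 X - t.1 - L) -
          (T - c • ContinuousLinearMap.id 𝕜 X - s.1 - K) := by
        rw [Prod.fst_sub, sub_smul]; abel
      rw [this]
      refine (norm_sub_le _ _).trans ?_
      linarith
    have h0 : c0 * ‖c - c'‖ ≤ 0 := le_of_forall_pos_le_add fun e he => by
      simpa using key e he
    have h3 : ‖c - c'‖ ≤ 0 := by
      by_contra hlt
      rw [not_le] at hlt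
      have := mul_pos h.pos hlt
      linarith
    exact sub_eq_zero.1 (norm_le_zero_iff.1 h3)
  subst hc
  refine ⟨rfl, ?_⟩
  have key : ∀ e : ℝ, 0 < e → ‖V - V'‖ ≤ e := by
    intro e he
    obtain ⟨s, hs, K, hK, a1, a2⟩ := h1 (e / 6) (by positivity)
    obtain ⟨t, ht, L, hL, b1, b2⟩ := h2 (e / 6) (by positivity)
    have h3 := cal_gamex_cauchy h hs ht hK hL a1 b1
    have h4 : V - V' = (V - s.2) + (s.2 - t.2) - (V' - t.2) := by abel
    rw [h4]
    have g1 := norm_sub_le ((V - s.2) + (s.2 - t.2)) (V' - t.2)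
    have g2 := norm_add_le (V - s.2) (s.2 - t.2)
    linarith
  have h0 : ‖V - V'‖ ≤ 0 := le_of_forall_pos_le_add fun e he => by
    simpa using key e he
  exact sub_eq_zero.1 (norm_le_zero_iff.1 h0)

end

theorem cal_gamal (𝕜 : Type*) [RCLike 𝕜] (X Z : Type*) [NormedAddCommGroup X] [NormedSpace 𝕜 X]
    [NormedAddCommGroup Z] [NormedSpace 𝕜 Z] : GAMALStmt 𝕜 X Z := by
  intro S c0 h
  exact ⟨gamal_one h, gamal_zero h, fun T T' c c' V V' h1 h2 => gamal_add h h1 h2,
    fun T c V r h1 => gamal_smul h r h1, fun T T' c c' V V' h1 h2 => gamal_mul h h1 h2,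
    fun T c c' V V' h1 h2 => gamal_uniq h h1 h2⟩

end CAL
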