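import Pool.Agent.H27.CAL.Stmts2

open Filter Topology

namespace CAL

section
variable {𝕜 : Type*} [RCLike 𝕜] {X Z : Type*} [NormedAddCommGroup X] [NormedSpace 𝕜 X]
    [NormedAddCommGroup Z] [NormedSpace 𝕜 Z]

theorem AbsData.sub {S : Set ((X →L[𝕜] X) × (Z →L[𝕜] Z))} {c0 : ℝ} (h : AbsData S c0)
    {s t : (X →L[𝕜] X) × (Z →L[𝕜] Z)} (hs : s ∈ S) (ht : t ∈ S) : s - t ∈ S := by
  have h1 := h.add s hs _ (h.smul t ht (-1))
  rwa [neg_one_smul, ← sub_eq_add_neg] at h1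

theorem cal_gamex_cauchy {S : Set ((X →L[𝕜] X) × (Z →L[𝕜] Z))} {c0 : ℝ} (h : AbsData S c0)
    {T : X →L[𝕜] X} {c : 𝕜} {s t : (X →L[𝕜] X) × (Z →L[𝕜] Z)} (hs : s ∈ S) (ht : t ∈ S)
    {K L : X →L[𝕜] X} (hK : IsCompactOperator K) (hL : IsCompactOperator L) {d e : ℝ}
    (h1 : ‖T - c • ContinuousLinearMap.id 𝕜 X - s.1 - K‖ ≤ d)
    (h2 : ‖T - c • ContinuousLinearMap.id 𝕜 X - t.1 - L‖ ≤ e) :
    ‖s.2 - t.2‖ ≤ 2 * (d + e) := by
  have h3 := h.lo _ (h.sub hs ht) (L - K) (hL.sub hK)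
  have h4 : (s - t).1 - (L - K) = (T - c • ContinuousLinearMap.id 𝕜 X - t.1 - L) -
      (T - c • ContinuousLinearMap.id 𝕜 X - s.1 - K) := by
    rw [Prod.fst_sub]; abel
  rw [h4] at h3
  have h5 := norm_sub_le (T - c • ContinuousLinearMap.id 𝕜 X - t.1 - L)
    (T - c • ContinuousLinearMap.id 𝕜 X - s.1 - K)
  have h6 : (s - t).2 = s.2 - t.2 := rfl
  rw [h6] at h3
  linarith

end

theorem cal_gamex (𝕜 : Type*) [RCLike 𝕜] (X Z : Type*) [NormedAddCommGroup X] [NormedSpace 𝕜 X]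
    [NormedAddCommGroup Z] [NormedSpace 𝕜 Z] [CompleteSpace Z] : GAMEXStmt 𝕜 X Z := by
  intro S c0 h T
  obtain ⟨c, hc⟩ := h.app T
  have hpos : ∀ n : ℕ, 0 < 1 / ((n : ℝ) + 1) := fun n => Nat.one_div_pos_of_nat
  choose s hs K hK hb using fun n : ℕ => hc (1 / ((n : ℝ) + 1)) (hpos n)
  have hcau : CauchySeq (fun n => (s n).2) := by
    rw [Metric.cauchySeq_iff']
    intro e he
    obtain ⟨N, hN⟩ := exists_nat_one_div_lt (show 0 < e / 4 by positivity)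
    refine ⟨N, fun n hn => ?_⟩
    rw [dist_eq_norm]
    have h1 := cal_gamex_cauchy h (hs n) (hs N) (hK n) (hK N) (hb n) (hb N)
    have h2 : 1 / ((n : ℝ) + 1) ≤ 1 / ((N : ℝ) + 1) := Nat.one_div_le_one_div hn
    linarith
  obtain ⟨V, hV⟩ := cauchySeq_tendsto_of_complete hcau
  refine ⟨c, V, ?_, ?_⟩
  · intro e he
    have h1 : Tendsto (fun n => ‖V - (s n).2‖) atTop (𝓝 0) := by
      have := (tendsto_const_nhds (x := V)).sub hV
      rw [sub_self] at this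
      simpa using this.norm
    have h2 : ∀ᶠ n in atTop, ‖V - (s n).2‖ ≤ e :=
      h1.eventually (ge_mem_nhds he) |>.mono fun _ h => h
    have h3 : ∀ᶠ n : ℕ in atTop, 1 / ((n : ℝ) + 1) ≤ e :=
      (tendsto_one_div_add_atTop_nhds_zero_nat (𝕜 := ℝ)).eventually (ge_mem_nhds he)
    obtain ⟨n, hn1, hn2⟩ := (h2.and h3).exists
    exact ⟨s n, hs n, K n, hK n, (hb n).trans hn2, hn1⟩
  · exact isCompactOperator_of_tendsto hV (Eventually.of_forall fun n => h.comp _ (hs n))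

end CAL
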